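import Pool.Agent.H86.TzC

set_option autoImplicit false

namespace Pool.Agent.Results.MP_b633b3_co.NotInvariant

open Pool.Agent.H86.Surv

theorem result : ∃ (V W : Type) (G : SimpleGraph V) (H : SimpleGraph W), Admissible G ∧
    Admissible H ∧ QuasiIsometric G H ∧ survival G ≤ 6 ∧ survival H = ⊤ :=
  ⟨_, _, TZ.G2, TZ.G1, TZ.adm2, TZ.adm1, TZ.qi, TZ.survival2, TZ.survival1⟩

end Pool.Agent.Results.MP_b633b3_co.NotInvariant
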